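import Pool.Agent.H93.GT.Targets

/-!
MP_de9001_an, board gdi_modules, row GUQ: uniqueness of the addresses.
-/

set_option autoImplicit false

namespace Pool.Agent.H42.GT

open Pool.Agent.H93.GT Pool.Agent.H87.Synth Pool.Agent.H85.SC Finset
open Pool.Agent.H93.ET (sg jj iE iA T_KKL T_CUT T_BRK T_SER T_CRI)

theorem lc_cases (i : ℕ) : (i = 2 ^ lg i ∧ lc i = 1) ∨ (i ≠ 2 ^ lg i ∧ lc i = 3) := by
  unfold lc
  by_cases h : i = 2 ^ lg i
  · left
    exact ⟨h, if_pos h⟩
  · right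
    exact ⟨h, if_neg h⟩

theorem slot_lt (n i j : ℕ) (h : i < j) : slot n i < slot n j := by
  unfold slot
  have : i ^ 2 < j ^ 2 := Nat.pow_lt_pow_left h (by norm_num)
  omega

theorem key (n i i' : ℕ) (hv : Valid n i) (hv' : Valid n i') (hi' : i' ≠ 1) (hlc : lc i = lc i')
    (hr : rho i = rho i') (hlt : i < i') : slot n i < ps n i' := by
  rcases lc_cases i with ⟨h1, h2⟩ | ⟨h1, h2⟩
  · rcases lc_cases i' with ⟨h3, h4⟩ | ⟨h3, h4⟩
    · obtain ⟨a, ha⟩ : ∃ a, a = lg i := ⟨_, rfl⟩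
      obtain ⟨a', ha'⟩ : ∃ a', a' = lg i' := ⟨_, rfl⟩
      have e1 : rho i = (a : ℤ) % 2 := by
        unfold rho
        rw [if_pos h1, ha]
      have e2 : rho i' = (a' : ℤ) % 2 := by
        unfold rho
        rw [if_pos h3, ha']
      have hn := hv.2
      rw [← ha] at h1 hn
      have h3' := h3
      rw [← ha'] at h3
      have haa : a < a' := by
        rw [h1, h3] at hlt
        exact (Nat.pow_lt_pow_iff_right (by norm_num)).1 hlt
      have hpar : a + 2 ≤ a' := by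
        rw [e1, e2] at hr
        omega
      have hle : 2 ^ a < 2 ^ (a' - 1) := Nat.pow_lt_pow_right (by norm_num) (by omega)
      have e3 : ps n i' = slot n (2 ^ (a' - 1)) := by
        unfold ps
        rw [if_pos h3', ← ha', if_pos (by omega)]
      rw [e3, h1]
      exact slot_lt n _ _ hle
    · rw [h2, h4] at hlc
      norm_num at hlc
  · rcases lc_cases i' with ⟨h3, h4⟩ | ⟨h3, h4⟩
    · rw [h2, h4] at hlc
      norm_num at hlc
    · have e1 : rho i = (i : ℤ) % 2 := by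
        unfold rho
        rw [if_neg h1]
      have e2 : rho i' = (i' : ℤ) % 2 := by
        unfold rho
        rw [if_neg h3]
      rw [e1, e2] at hr
      have e3 : ps n i' = slot n (i' - 1) := by
        unfold ps
        rw [if_neg h3]
      rw [e3]
      exact slot_lt n _ _ (by omega)

theorem jj_cases (s : Bool) : (s = true ∧ jj s = 0) ∨ (s = false ∧ jj s = 1) := by
  cases s
  · right
    exact ⟨rfl, rfl⟩
  · left
    exact ⟨rfl, rfl⟩

theorem same_line (h2 : T_LNS) (h6 : T_APD) {n n' : ℕ} {c c' e e' z : ℤ} (hc : c = 1 ∨ c = 3)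
    (hc' : c' = 1 ∨ c' = 3) (he : 0 ≤ e ∧ e < 6) (he' : 0 ≤ e' ∧ e' < 6) (hz : lr c n e z)
    (hz' : lr c' n' e' z) : n = n' ∧ c = c' ∧ e = e' := by
  obtain ⟨-, -, hL3, hL4, hL5, -, -, -⟩ := h2
  obtain ⟨hA1, hA2, hA3, -⟩ := h6
  rcases hc with rfl | rfl <;> rcases hc' with rfl | rfl
  · have h := hA1 n n' z (hL4 n e z hz) (hL4 n' e' z hz')
    subst h
    exact ⟨rfl, rfl, hL3 _ _ _ _ _ he.1 he.2 he'.1 he'.2 hz hz'⟩
  · exact absurd (hL5 n' e' z hz') (hA3 n n' z (hL4 n e z hz))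
  · exact absurd (hL5 n e z hz) (hA3 n' n z (hL4 n' e' z hz'))
  · have h := hA2 n n' z (hL5 n e z hz) (hL5 n' e' z hz')
    subst h
    exact ⟨rfl, rfl, hL3 _ _ _ _ _ he.1 he.2 he'.1 he'.2 hz hz'⟩

theorem b_mono {d : ℕ → ℝ} (P : Pos d) (n i : ℕ) (hv : Valid n i) (hi : i ≠ 1) (m m' : ℕ)
    (h : m ≤ m') (hN : m' ≤ P.N n i) : P.b n i m ≤ P.b n i m' := by
  induction m', h using Nat.le_induction with
  | base => exact le_refl _
  | succ k hk ih =>
    have h1 := P.hbm n i k hv hi (by omega)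
    exact (ih (by omega)).trans h1.1.le

theorem guq (h1 : T_GSZ) (h2 : T_LNS) (h3 : T_ZON) (h4 : T_PRE) (h5 : T_SLT) (h6 : T_APD) :
    T_GUQ := by
  intro d P
  obtain ⟨hX0, -, hX, -, -, -⟩ := h1 d P
  obtain ⟨hZ1, hZ2, -⟩ := h3 d P
  have hL := h2
  obtain ⟨-, -, -, -, -, hL6, -, hL8⟩ := h2
  refine ⟨?_, ?_, ?_, ?_⟩
  · intro n i t κ s n' i' t' κ' s' hv hi hg hκ hv' hi' hg' hκ' heq
    obtain ⟨a1, a2, a3⟩ := hL6 n i t κ s hκ
    obtain ⟨b1, b2, b3⟩ := hL6 n' i' t' κ' s' hκ'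
    rw [← heq] at b1
    have hj := jj_cases s
    have hj' := jj_cases s'
    obtain ⟨e1, e2, e3⟩ := same_line hL h6 a3 b3
      (by rcases a2 with h | h <;> rcases hj with ⟨-, h'⟩ | ⟨-, h'⟩ <;> rw [h, h'] <;> norm_num)
      (by rcases b2 with h | h <;> rcases hj' with ⟨-, h'⟩ | ⟨-, h'⟩ <;> rw [h, h'] <;> norm_num)
      a1 b1
    subst e1
    have hrs : rho i = rho i' := by
      rcases hj with ⟨-, h⟩ | ⟨-, h⟩ <;> rcases hj' with ⟨-, h'⟩ | ⟨-, h'⟩ <;>
        rw [h, h'] at e3 <;> omega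
    obtain ⟨z1, z2⟩ := hZ1 n i t κ s hv hi hg hκ
    obtain ⟨w1, w2⟩ := hZ1 n i' t' κ' s' hv' hi' hg' hκ'
    rw [← heq] at w1 w2
    have hii : i = i' := by
      rcases lt_trichotomy i i' with h | h | h
      · exfalso
        have h7 := key n i i' hv hv' hi' e2 hrs h
        have h8 := (hX _ _ h7).1
        have h9 := hX0 (slot n i)
        omega
      · exact h
      · exfalso
        have h7 := key n i' i hv' hv hi e2.symm hrs.symm h
        have h8 := (hX _ _ h7).1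
        have h9 := hX0 (slot n i')
        omega
    subst hii
    exact ⟨rfl, rfl, hL8 n i t κ s t' κ' s' hκ hκ' heq⟩
  · intro n i n' i' z hz hz'
    obtain ⟨a1, a2⟩ := hZ2 n i z hz
    obtain ⟨b1, b2⟩ := hZ2 n' i' z hz'
    have hs : slot n i = slot n' i' := by
      rcases lt_trichotomy (slot n i) (slot n' i') with h | h | h
      · exfalso
        have h8 := (hX _ _ h).1
        have h9 := hX0 (slot n i)
        omega
      · exact h
      · exfalso
        have h8 := (hX _ _ h).1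
        have h9 := hX0 (slot n' i')
        omega
    exact h5.1 n i n' i' hz.1 hz'.1 hs
  · intro n i z n' i' t κ s hz hκ heq
    obtain ⟨b1, b2, b3⟩ := hL6 n' i' t κ s hκ
    rw [← heq] at b1
    have hj := jj_cases s
    have hc : lc i = 1 ∨ lc i = 3 := by
      rcases lc_cases i with ⟨-, h⟩ | ⟨-, h⟩
      · exact Or.inl h
      · exact Or.inr h
    obtain ⟨e1, e2, e3⟩ := same_line hL h6 hc b3 (by norm_num)
      (by rcases b2 with h | h <;> rcases hj with ⟨-, h'⟩ | ⟨-, h'⟩ <;> rw [h, h'] <;> norm_num)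
      hz.2.2.2.1 b1
    rcases b2 with h | h <;> rcases hj with ⟨-, h'⟩ | ⟨-, h'⟩ <;> rw [h, h'] at e3 <;> norm_num at e3
  · intro n i m m' t hv hi hm hm' ht ht'
    have a := mem_Ico.1 ((P.hT n i m hv hi hm).1 ht)
    have b := mem_Ico.1 ((P.hT n i m' hv hi hm').1 ht')
    rcases lt_trichotomy m m' with h | h | h
    · exfalso
      have := b_mono P n i hv hi (m + 1) m' h hm'.le
      omega
    · exact h
    · exfalso
      have := b_mono P n i hv hi (m' + 1) m h hm.le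
      omega

end Pool.Agent.H42.GT
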