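import Pool.Agent.H93.GT.Targets
import Pool.Agent.H42.GT.GUQ

/-!
MP_de9001_an, board gdi_modules, row GSX: the selection of the stay points. The proof follows
`sux` of `Pool/Agent/H76/SC/SUP.lean` (helper76).
-/

set_option autoImplicit false

namespace Pool.Agent.H42.GT

open Pool.Agent.H93.GT Pool.Agent.H87.Synth Pool.Agent.H85.SC Finset
open Pool.Agent.H93.ET (sg jj iE iA T_KKL T_CUT T_BRK T_SER T_CRI)

theorem ind_pos {P : ℤ → Prop} {z : ℤ} (h : P z) : ind P z = 1 := by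
  unfold ind
  simp [h]

theorem ind_neg {P : ℤ → Prop} {z : ℤ} (h : ¬ P z) : ind P z = 0 := by
  unfold ind
  simp [h]

theorem lg_two_pow (a : ℕ) : lg (2 ^ a) = a := Nat.log_pow (by norm_num) a

theorem lvl_two_pow (n a : ℕ) : lvl n (2 ^ a) = n := by
  unfold lvl
  rw [lg_two_pow]
  omega

theorem lc_two_pow (a : ℕ) : lc (2 ^ a) = 1 := by
  unfold lc
  rw [if_pos (by rw [lg_two_pow])]

theorem X_mono {d : ℕ → ℝ} (P : Pos d) (hX : ∀ r r', r < r' → 1024 * P.X r ≤ P.X r')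
    {r r' : ℕ} (h : r ≤ r') : P.X r ≤ P.X r' := by
  rcases h.eq_or_lt with h | h
  · rw [h]
  · have := hX r r' h
    omega

theorem vg_reg {d : ℕ → ℝ} (P : Pos d) (h1 : T_GVL) (hX : ∀ r r', r < r' → 1024 * P.X r ≤ P.X r')
    (r r' : ℕ) (z : ℤ) (hz1 : (P.X r' : ℤ) ≤ z) (hz2 : z < 2 * P.X r') :
    P.VG r z = if r' ≤ r then 1 else 0 := by
  obtain ⟨hV1, hV2, -⟩ := h1 d P
  split_ifs with h
  · refine hV1 r z ?_
    have h3 := X_mono P hX h
    rw [abs_le]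
    constructor <;> omega
  · refine hV2 r z ?_
    have h3 := X_mono P hX (show r + 1 ≤ r' by omega)
    have h4 := le_abs_self z
    omega

theorem gsx (h1 : T_GVL) (h2 : T_GIV) (h3 : T_ZON) (h4 : T_GSZ) (h5 : T_LNS) (h6 : T_APD)
    (h7 : T_SLT) (h8 : T_GSG) (h9 : T_GUQ) : T_GSX := by
  classical
  intro d P S hS g hg n hn a ha R hR
  obtain ⟨hX0, -, hXX, -, -, -⟩ := h4 d P
  have hX : ∀ r r', r < r' → 1024 * P.X r ≤ P.X r' := fun r r' h => (hXX r r' h).1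
  obtain ⟨-, hZ2, -⟩ := h3 d P
  obtain ⟨hG1, hG2, hG3, -⟩ := h8 d P
  have hL := h5
  obtain ⟨-, -, -, -, -, hL6, -, -⟩ := h5
  obtain ⟨r, hr⟩ : ∃ r, r = slot n (2 ^ a) := ⟨_, rfl⟩
  rw [← hr] at hR ⊢
  have hr1 : 1 ≤ r := by
    rw [hr]
    unfold slot
    have : 0 < (2 ^ a) ^ 2 := by positivity
    omega
  unfold Pos.gS
  rw [← sum_union (hG3 n (2 ^ a)).2.1]
  symm
  have hmemFS : ∀ (i : ℕ) (s z : ℤ), z ∈ P.FS n i s ↔
      P.Reg n i z ∧ s1 n i z = s ∧ s2 n i z = s ∧ s3 n i z = -s := by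
    intro i s z
    unfold Pos.FS
    rw [mem_filter, hG1]
  have hmem : ∀ z ∈ P.FS n (2 ^ a) 1 ∪ P.FS n (2 ^ a) (-1), ∃ s : ℤ, (s = 1 ∨ s = -1) ∧
      P.Reg n (2 ^ a) z ∧ s1 n (2 ^ a) z = s ∧ s2 n (2 ^ a) z = s ∧ s3 n (2 ^ a) z = -s := by
    intro z hz
    rw [mem_union, hmemFS, hmemFS] at hz
    rcases hz with h | h
    · exact ⟨1, Or.inl rfl, h⟩
    · exact ⟨-1, Or.inr rfl, h⟩
  have hsub : P.FS n (2 ^ a) 1 ∪ P.FS n (2 ^ a) (-1) ⊆ Ioo (-R) R := by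
    intro z hz
    obtain ⟨s, _, hreg, _⟩ := hmem z hz
    obtain ⟨z1, z2⟩ := hZ2 n (2 ^ a) z hreg
    have h10 := hX r (r + 1) (by omega)
    have h11 := hX0 r
    rw [← hr] at z1 z2
    rw [mem_Ioo, hR]
    constructor <;> omega
  have htr : ∀ z, lr 1 n 4 z → trg n a z =
      (1 + (s1 n (2 ^ a) z : ℂ) * s2 n (2 ^ a) z) *
        (1 - (s1 n (2 ^ a) z : ℂ) * s3 n (2 ^ a) z) / 4 := by
    intro z hz
    unfold trg s1 s2 s3
    rw [ind_pos hz, lvl_two_pow, lg_two_pow]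
    push_cast
    ring
  have heq : ∀ z ∈ P.FS n (2 ^ a) 1 ∪ P.FS n (2 ^ a) (-1),
      g z = trg n a z * ((P.VG r z : ℂ) - P.VG (r - 1) z) * g z := by
    intro z hz
    obtain ⟨s, hs, hreg, k1, k2, k3⟩ := hmem z hz
    have hlr : lr 1 n 4 z := by
      have := hreg.2.2.2.1
      rwa [lc_two_pow] at this
    obtain ⟨z1, z2⟩ := hZ2 n (2 ^ a) z hreg
    rw [← hr] at z1 z2
    rw [htr z hlr, k1, k2, k3, vg_reg P h1 hX r r z z1 z2, vg_reg P h1 hX (r - 1) r z z1 z2,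
      if_pos le_rfl, if_neg (by omega)]
    rcases hs with h | h <;> rw [h] <;> push_cast <;> ring
  rw [sum_congr rfl heq]
  apply sum_subset hsub
  intro z hz hzB
  by_contra hne
  have hg0 : g z ≠ 0 := right_ne_zero_of_mul hne
  have ht0 : trg n a z ≠ 0 := left_ne_zero_of_mul (left_ne_zero_of_mul hne)
  have hv0 : (P.VG r z : ℂ) - P.VG (r - 1) z ≠ 0 := right_ne_zero_of_mul (left_ne_zero_of_mul hne)
  have hlr : lr 1 n 4 z := by
    by_contra hcon
    apply ht0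
    unfold trg
    rw [ind_neg hcon, zero_mul]
  have hcls : ∃ c, z ∈ P.cls S c := by
    by_contra hcon
    push Not at hcon
    exact hg0 (hg z hcon)
  obtain ⟨c, hc⟩ := hcls
  have hreg : ∃ i, P.Reg n i z ∧ lc i = 1 := by
    rcases h2 d P S hS c z hc with ⟨n', i', -, hr'⟩ | ⟨n', i', t, κ, s, -, hv, hi, hgt, hκ, rfl⟩
    · have hc' : lc i' = 1 ∨ lc i' = 3 := by
        rcases lc_cases i' with ⟨-, h⟩ | ⟨-, h⟩
        · exact Or.inl h
        · exact Or.inr h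
      obtain ⟨e1, e2, -⟩ := same_line hL h6 (Or.inl rfl) hc' (by norm_num) (by norm_num) hlr
        hr'.2.2.2.1
      subst e1
      exact ⟨i', hr', e2.symm⟩
    · exfalso
      obtain ⟨b1, b2, b3⟩ := hL6 n' i' t κ s hκ
      have hj := jj_cases s
      obtain ⟨-, -, e3⟩ := same_line hL h6 (Or.inl rfl) b3 (by norm_num)
        (by rcases b2 with h | h <;> rcases hj with ⟨-, h'⟩ | ⟨-, h'⟩ <;> rw [h, h'] <;> norm_num)
        hlr b1
      rcases b2 with h | h <;> rcases hj with ⟨-, h'⟩ | ⟨-, h'⟩ <;> rw [h, h'] at e3 <;>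
        norm_num at e3
  obtain ⟨i, hreg, hlc⟩ := hreg
  obtain ⟨z1, z2⟩ := hZ2 n i z hreg
  have hslot : slot n i = r := by
    rw [vg_reg P h1 hX r (slot n i) z z1 z2, vg_reg P h1 hX (r - 1) (slot n i) z z1 z2] at hv0
    by_contra hcon
    apply hv0
    rcases Nat.lt_or_gt_of_ne hcon with h | h
    · rw [if_pos (by omega), if_pos (by omega)]
      simp
    · rw [if_neg (by omega), if_neg (by omega)]
      simp
  have hi2 : i = 2 ^ a := by
    rw [hr] at hslot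
    unfold slot at hslot
    have h3 : i ^ 2 = (2 ^ a) ^ 2 := by omega
    exact Nat.pow_left_injective (by norm_num : 2 ≠ 0) h3
  subst hi2
  obtain ⟨hs1, hs2, hs3⟩ := hG2 n (2 ^ a) z hreg
  rw [htr z hlr] at ht0
  apply hzB
  rw [mem_union, hmemFS, hmemFS]
  rcases hs1 with k1 | k1 <;> rcases hs2 with k2 | k2 <;> rcases hs3 with k3 | k3 <;>
    rw [k1, k2, k3] at ht0 <;>
    first
      | (exfalso; apply ht0; push_cast; norm_num; done)
      | (left; exact ⟨hreg, k1, k2, by rw [k3]⟩)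
      | (right; exact ⟨hreg, k1, k2, by rw [k3]; norm_num⟩)

end Pool.Agent.H42.GT
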